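import Pool.Agent.H98.RSGraph

/-! A bounded degree graph on which the random stirring model has infinite cycles almost surely
at some time `T₁` and only finite cycles almost surely at some later time `T₂`. -/

set_option autoImplicit false

open Set MeasureTheory ProbabilityTheory

namespace Pool.Agent.Results.MP_668046_pr.Disproof

/-- The marks of an edge: the number `N` of its bars and a sequence of times. The bars of the edge
are at the first `N` times of the sequence. -/
abbrev Mark : Type := ℕ × (ℕ → ℝ)

/-- The uniform law on `[0, T]`. -/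
noncomputable def unifLaw (T : ℝ) : Measure ℝ :=
  (volume.restrict (Icc (0 : ℝ) 1)).map (fun x => T * x)

instance isProb_unifLaw (T : ℝ) : IsProbabilityMeasure (unifLaw T) := by
  have h : IsProbabilityMeasure (volume.restrict (Icc (0 : ℝ) 1)) := ⟨by simp⟩
  exact Measure.isProbabilityMeasure_map (by fun_prop)

/-- The law of the marks of an edge, for a Poisson process of rate one on `[0, T]`: the number of
bars is Poisson with mean `T` and the times are independent and uniform on `[0, T]`. -/
noncomputable def markLaw (T : ℝ) : Measure Mark :=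
  (poissonMeasure T.toNNReal).prod (Measure.infinitePi fun _ : ℕ => unifLaw T)

instance isProb_markLaw (T : ℝ) : IsProbabilityMeasure (markLaw T) := by
  rw [markLaw]; infer_instance

section

variable {V : Type} (G : SimpleGraph V)

/-- The law of the random stirring model on `G` with parameter `T`: independent marks on the
edges. -/
noncomputable def stirLaw (T : ℝ) : Measure (G.edgeSet → Mark) :=
  Measure.infinitePi fun _ : G.edgeSet => markLaw T

/-- There is a bar at time `t` on the edge between `x` and `y`. -/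
def Bar (ω : G.edgeSet → Mark) (x y : V) (t : ℝ) : Prop :=
  ∃ e : G.edgeSet, (e : Sym2 V) = s(x, y) ∧ ∃ i < (ω e).1, (ω e).2 i = t

/-- `q` is the space-time point reached from `p` by crossing the first bar after time `p.2` on an
edge at the vertex `p.1`. -/
def Jump (ω : G.edgeSet → Mark) (p q : V × ℝ) : Prop :=
  p.2 < q.2 ∧ Bar G ω p.1 q.1 q.2 ∧ ∀ u t, p.2 < t → Bar G ω p.1 u t → q.2 ≤ t

open Classical in
/-- One step of the trajectory: jump across the first later bar at the current vertex; if there is
none, the trajectory stays at the vertex until time `T` and restarts at time `0`. -/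
noncomputable def step (ω : G.edgeSet → Mark) (p : V × ℝ) : V × ℝ :=
  if h : ∃ q, Jump G ω p q then h.choose else (p.1, 0)

/-- The cycle of `v`: the vertices `u` such that the trajectory from `(v, 0)` passes through
`(u, 0)`. -/
def cycle (ω : G.edgeSet → Mark) (v : V) : Set V :=
  {u | ∃ n : ℕ, (step G ω)^[n] (v, 0) = (u, 0)}

/-- The model is well defined on `G`: for every `T`, almost surely, the trajectory from each
`(v, 0)` is back at time `0` after finitely many jumps. -/
def WellDefined : Prop :=
  ∀ T : ℝ, 0 < T → ∀ᵐ ω ∂(stirLaw G T), ∀ v : V, ∃ n : ℕ, 0 < n ∧ ((step G ω)^[n] (v, 0)).2 = 0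

/-- The set of the `T > 0` for which the model with parameter `T` has infinite cycles almost
surely. -/
def stirSet : Set ℝ :=
  {T | 0 < T ∧ ∀ᵐ ω ∂(stirLaw G T), ∃ v : V, (cycle G ω v).Infinite}

/-- The first critical time, the infimum of `stirSet G`. -/
noncomputable def Tc1 : EReal := ⨅ T ∈ stirSet G, (T : EReal)

/-- The second critical time, the supremum of the complement of `stirSet G` in `[0, ∞)`. -/
noncomputable def Tc2 : EReal := ⨆ T ∈ Ici (0 : ℝ) \ stirSet G, (T : EReal)

end

/-- There is a countable connected graph of bounded degree, on which the random stirring model is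
well defined, and there are `0 < T₁ < T₂` such that the model has infinite cycles almost surely at
`T₁`, and almost surely all its cycles are finite at `T₂`. In particular the two critical times
are different. -/
theorem result : ∃ (V : Type) (_ : Countable V) (G : SimpleGraph V),
    G.Connected ∧ (∃ D : ℕ, ∀ v, (G.neighborSet v).encard ≤ D) ∧ WellDefined G ∧
    (∃ T₁ T₂ : ℝ, 0 < T₁ ∧ T₁ < T₂ ∧ T₁ ∈ stirSet G ∧ T₂ ∉ stirSet G ∧
      ∀ᵐ ω ∂(stirLaw G T₂), ∀ v, (cycle G ω v).Finite) ∧
    Tc1 G < Tc2 G := by
  obtain ⟨b, n, d, k, T₁, T₂, hd, hT₁, hT₁₂, h1, h2, h3⟩ := H98.RS.graph_main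
  have hcount : Countable (List (Fin b) × H98.RS.GV n d k) := by
    have h4 : Finite (H98.RS.GV n d k) := inferInstance
    infer_instance
  have hT₂ : 0 < T₂ := hT₁.trans hT₁₂
  have hprob : IsProbabilityMeasure (stirLaw (H98.RS.dtree b n d k) T₂) := by
    rw [stirLaw]; infer_instance
  have hin : T₁ ∈ stirSet (H98.RS.dtree b n d k) := ⟨hT₁, h2⟩
  have hfin : ∀ᵐ ω ∂(stirLaw (H98.RS.dtree b n d k) T₂), ∀ v,
      (cycle (H98.RS.dtree b n d k) ω v).Finite := by
    have h4 : ∀ᵐ ω ∂(stirLaw (H98.RS.dtree b n d k) T₂), ∀ v,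
      ¬ (cycle (H98.RS.dtree b n d k) ω v).Infinite := h3
    filter_upwards [h4] with ω hω v
    exact Set.not_infinite.mp (hω v)
  have hout : T₂ ∉ stirSet (H98.RS.dtree b n d k) := by
    rintro ⟨_, h4⟩
    have h5 : ∀ᵐ _ω ∂(stirLaw (H98.RS.dtree b n d k) T₂), False := by
      filter_upwards [h4, hfin] with ω h6 h7
      obtain ⟨v, hv⟩ := h6
      exact hv (h7 v)
    rw [Filter.eventually_false_iff_eq_bot, ae_eq_bot] at h5
    exact hprob.neZero.out h5
  refine ⟨_, hcount, H98.RS.dtree b n d k, H98.RS.dtree_connected hd, H98.RS.dtree_degree, h1,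
    ⟨T₁, T₂, hT₁, hT₁₂, hin, hout, hfin⟩, ?_⟩
  have h4 : Tc1 (H98.RS.dtree b n d k) ≤ (T₁ : EReal) := iInf₂_le T₁ hin
  have h5 : (T₂ : EReal) ≤ Tc2 (H98.RS.dtree b n d k) :=
    le_iSup₂ (f := fun (T : ℝ) (_ : T ∈ Ici (0 : ℝ) \ stirSet (H98.RS.dtree b n d k)) =>
      (T : EReal)) T₂ ⟨hT₂.le, hout⟩
  exact h4.trans_lt ((EReal.coe_lt_coe_iff.mpr hT₁₂).trans_le h5)

end Pool.Agent.Results.MP_668046_pr.Disproof
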